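import Pool.Agent.Q213.EP.NC

set_option autoImplicit false

/-!
# MP_efa640_lc: the orders `E_P` are all isomorphic if and only if the continuum hypothesis holds

The nonstandard extension is a structure `M` for the language with all finitary functions and
relations on `ℕ` (`Q204.NS.fullLang`) that satisfies the transfer principle
(`Q204.NS.IsExtension`) and is saturated for families of at most continuum many sets of the form
`{x | *R (a, x)}` (`Saturated`; these are internal sets, so condition (i) of the problem gives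
`Saturated`; condition (ii) is not used).
`Iso M P Q` says that the ordered sets of the classes of the pairs `(p, x)` for `P` and for `Q`
are isomorphic.

For every such `M` all these ordered sets, for nonprincipal ultrafilters `P` and `Q` containing
the set of primes, are isomorphic if and only if `𝔠 = ℵ₁`.  In `ZFC` alone there are ultrafilters
`P κ`, one for every regular uncountable `κ ≤ 𝔠`, whose orders are pairwise not isomorphic.
-/

namespace Pool.Agent.Results.MP_efa640_lc.EquivalentToCH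

open FirstOrder FirstOrder.Language Cardinal Q204.NS Pool.Agent.Q213.EP

theorem family : ∃ P : Cardinal.{0} → Ultrafilter ℕ,
    (∀ κ : Cardinal.{0}, κ.IsRegular → ℵ₀ < κ → κ ≤ 𝔠 → OnPrimes (P κ)) ∧
    ∀ κ μ : Cardinal.{0}, κ.IsRegular → ℵ₀ < κ → κ ≤ 𝔠 → μ.IsRegular → ℵ₀ < μ → μ ≤ 𝔠 →
      κ < μ → ¬ Nonempty (CutSet (P κ) ≃o CutSet (P μ)) := by
  have h : ∀ κ : Cardinal.{0}, ∃ U : Ultrafilter ℕ, κ.IsRegular → ℵ₀ < κ → κ ≤ 𝔠 →
      ∃ g : κ.ord.ToType → ℕ → ℕ, {p : ℕ | p.Prime} ∈ U ∧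
      (∀ i (m : ℕ), {n | m ≤ g i n} ∈ U) ∧
      ∀ f : ℕ → ℕ, (∀ m : ℕ, {n | m ≤ f n} ∈ U) → ∃ b, ∀ j ≥ b, {n | g j n ≤ f n} ∈ U := by
    intro κ
    by_cases hκ : κ.IsRegular ∧ ℵ₀ < κ ∧ κ ≤ 𝔠
    · obtain ⟨U, g, h1, h2, h3⟩ := exists_low_prime κ hκ.1 hκ.2.1 hκ.2.2
      exact ⟨U, fun _ _ _ => ⟨g, h1, h2, h3⟩⟩
    · exact ⟨pure 0, fun h1 h2 h3 => absurd ⟨h1, h2, h3⟩ hκ⟩
  choose P hP using h
  refine ⟨P, ?_, ?_⟩
  · intro κ h1 h2 h3
    obtain ⟨g, g0, g1, -⟩ := hP κ h1 h2 h3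
    refine ⟨g0, ?_⟩
    intro n hn
    have h4 : Nonempty κ.ord.ToType := by
      rw [← Cardinal.mk_ne_zero_iff, Cardinal.mk_toType, Cardinal.card_ord]
      exact (lt_trans aleph0_pos h2).ne'
    obtain ⟨i⟩ := h4
    have h5 := g1 i (g i n + 1)
    rw [hn] at h5
    have h6 : g i n + 1 ≤ g i n := h5
    omega
  · intro κ μ h1 h2 h3 h1' h2' h3' hlt
    obtain ⟨g, -, g1, g2⟩ := hP κ h1 h2 h3
    obtain ⟨h, -, k1, k2⟩ := hP μ h1' h2' h3'
    exact not_iso h1' hlt g g1 g2 h k1 k2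

/-- **Main theorem.** -/
theorem result :
    (∀ (M : Type) [fullLang.Structure M], IsExtension M → Saturated M →
      ((∀ P Q : Ultrafilter ℕ, OnPrimes P → OnPrimes Q → Iso M P Q) ↔
        (𝔠 : Cardinal.{0}) = ℵ₁)) ∧
    ∃ P : Cardinal.{0} → Ultrafilter ℕ,
      (∀ κ : Cardinal.{0}, κ.IsRegular → ℵ₀ < κ → κ ≤ 𝔠 → OnPrimes (P κ)) ∧
      ∀ κ μ : Cardinal.{0}, κ.IsRegular → ℵ₀ < κ → κ ≤ 𝔠 → μ.IsRegular → ℵ₀ < μ → μ ≤ 𝔠 →
        κ ≠ μ → ∀ (M : Type) [fullLang.Structure M], IsExtension M → Saturated M →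
          ¬ Iso M (P κ) (P μ) := by
  obtain ⟨P, hP1, hP2⟩ := family
  refine ⟨?_, P, hP1, ?_⟩
  · intro M _ hM hS
    constructor
    · intro h
      by_contra hCH
      have h1 : (ℵ₁ : Cardinal.{0}) < 𝔠 := lt_of_le_of_ne aleph_one_le_continuum (Ne.symm hCH)
      have h2 : Order.succ (ℵ₁ : Cardinal.{0}) ≤ 𝔠 := Order.succ_le_of_lt h1
      have h3 : (ℵ₁ : Cardinal.{0}).IsRegular := isRegular_aleph_one
      have h4 : (Order.succ (ℵ₁ : Cardinal.{0})).IsRegular := isRegular_succ h3.aleph0_le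
      have h5 : (ℵ₀ : Cardinal.{0}) < ℵ₁ := aleph0_lt_aleph_one
      have h6 : (ℵ₁ : Cardinal.{0}) < Order.succ ℵ₁ := Order.lt_succ _
      have h7 := h _ _ (hP1 _ h3 h5 h1.le) (hP1 _ h4 (h5.trans h6) h2)
      rw [iso_iff hM hS (hP1 _ h3 h5 h1.le).1 (hP1 _ h4 (h5.trans h6) h2).1] at h7
      exact hP2 _ _ h3 h5 h1.le h4 (h5.trans h6) h2 h6 h7
    · intro hCH P Q hP hQ
      rw [iso_iff hM hS hP.1 hQ.1]
      exact cutIso_of_CH hCH (big_of_nonprincipal hP.2) (big_of_nonprincipal hQ.2)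
  · intro κ μ h1 h2 h3 h1' h2' h3' hne M _ hM hS hI
    rw [iso_iff hM hS (hP1 _ h1 h2 h3).1 (hP1 _ h1' h2' h3').1] at hI
    rcases lt_or_gt_of_ne hne with hlt | hlt
    · exact hP2 _ _ h1 h2 h3 h1' h2' h3' hlt hI
    · obtain ⟨e⟩ := hI
      exact hP2 _ _ h1' h2' h3' h1 h2 h3 hlt ⟨e.symm⟩

end Pool.Agent.Results.MP_efa640_lc.EquivalentToCH
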